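import Pool.Agent.Helper47.FLG.Alg2

/-!
# Project FLG: packet OD3
-/

namespace Pool.Agent.Helper38.FLG

open Finset Pool.Agent.Helper47.RFn Pool.Agent.Helper47.FLG

theorem dot_comm {n : ℕ} (u v : Fin n → ℝ) : dot u v = dot v u :=
  Finset.sum_congr rfl fun _ _ => mul_comm _ _

theorem dot_add_left {n : ℕ} (u v w : Fin n → ℝ) :
    dot (fun i => u i + v i) w = dot u w + dot v w := by
  simp only [dot, add_mul, Finset.sum_add_distrib]

theorem dot_add_right {n : ℕ} (u v w : Fin n → ℝ) :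
    dot w (fun i => u i + v i) = dot w u + dot w v := by
  rw [dot_comm, dot_add_left, dot_comm u, dot_comm v]

theorem dot_sub_left {n : ℕ} (u v w : Fin n → ℝ) :
    dot (fun i => u i - v i) w = dot u w - dot v w := by
  simp only [dot, sub_mul, Finset.sum_sub_distrib]

theorem dot_sub_right {n : ℕ} (u v w : Fin n → ℝ) :
    dot w (fun i => u i - v i) = dot w u - dot w v := by
  rw [dot_comm, dot_sub_left, dot_comm u, dot_comm v]

/-- the frame `e2, e3, e0, e1` -/
def sw {n : ℕ} (e : Fin 4 → Fin n → ℝ) : Fin 4 → Fin n → ℝ := ![e 2, e 3, e 0, e 1]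

theorem g_OD3 (hR4T : G_R4T) (hCL : Goal_CL) (hNV1 : G_NV1) (hOD1 : G_OD1) (hOD2 : G_OD2)
    (hEQF : G_EQF) : G_OD3 := by
  intro n hn R e hNV hQ
  obtain ⟨hlin, -, hsym, hK, hKs, -, -, -, hnrm, -, -, hqf, -⟩ := hR4T n
  have hC : IsCurv R := hNV.fg.1
  have hCQ : IsCurv (Q R) := (hCL n).1 R hC
  obtain ⟨hAc, -, hD, -⟩ := hNV1 n hn R e hNV
  obtain ⟨-, -, -, -, -, -, hE⟩ := hEQF n R (e 0) (e 1) (e 2) hAc
  obtain ⟨-, -, -, -, E5, E6, -, -, -, -, -, E12⟩ := hE (hD hQ)
  obtain ⟨O1, O2, O3, O4⟩ := hOD1 n hn R e hNV hQ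
  obtain ⟨M1, M2, M3, M4, M5, M6⟩ := hOD2 n hn R e hNV hQ
  have add2 : ∀ a p p' c d, R4 R a (fun i => p i + p' i) c d = R4 R a p c d + R4 R a p' c d := by
    intro a p p' c d
    have := (hlin R p p' a c d 1 1).2.1
    simpa using this
  have add4 : ∀ a b c p p', R4 R a b c (fun i => p i + p' i) = R4 R a b c p + R4 R a b c p' := by
    intro a b c p p'
    have := (hlin R p p' a b c 1 1).2.2.2
    simpa using this
  have smul4 : ∀ a b c p (t : ℝ), R4 R a b c (fun i => t * p i) = t * R4 R a b c p := by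
    intro a b c p t
    have := (hlin R p p a b c t 0).2.2.2
    simpa using this
  -- the exchanged frame
  have hNV' : NV R (sw e) := by
    refine ⟨hNV.fg, ?_, ?_, ?_⟩
    · intro i j
      have := hNV.on
      fin_cases i <;> fin_cases j <;> simp [sw, this _ _]
    · show K2 R (e 2) (e 0) = 1
      rw [hKs R hC, hNV.k02]
    · show qf R (cv (e 2) (e 3)) (cv (e 0) (e 1)) = 0
      have h1 := hNV.nul
      rw [hqf R hC] at h1 ⊢
      rw [hKs R hC (e 2) (e 0), hKs R hC (e 2) (e 1), hKs R hC (e 3) (e 0), hKs R hC (e 3) (e 1),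
        (hsym R hC (e 2) (e 3) (e 0) (e 1)).2.2.1]
      linarith
  have hQ' : qf (Q R) (cv (sw e 0) (sw e 1)) (cv (sw e 2) (sw e 3)) = 0 := by
    show qf (Q R) (cv (e 2) (e 3)) (cv (e 0) (e 1)) = 0
    rw [hqf (Q R) hCQ] at hQ ⊢
    rw [hKs _ hCQ (e 2) (e 0), hKs _ hCQ (e 2) (e 1), hKs _ hCQ (e 3) (e 0), hKs _ hCQ (e 3) (e 1),
      (hsym _ hCQ (e 2) (e 3) (e 0) (e 1)).2.2.1]
    linarith
  have hperp : ∀ q, perp4 e q → perp4 (sw e) q := by
    intro q hq i
    have := hq
    fin_cases i <;> simp [sw, this _]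
  have hperp' : ∀ q, perp4 (sw e) q → perp4 e q := by
    intro q hq i
    have h0 : dot q (e 2) = 0 := hq 0
    have h1 : dot q (e 3) = 0 := hq 1
    have h2 : dot q (e 0) = 0 := hq 2
    have h3 : dot q (e 1) = 0 := hq 3
    fin_cases i <;> assumption
  obtain ⟨P1, P2, -, -⟩ := hOD1 n hn R (sw e) hNV' hQ'
  have P1' : ∀ q, perp4 e q → ∃ q1 q4, perp4 e q1 ∧ perp4 e q4 ∧ q = (fun i => q1 i + q4 i) ∧
      Eg R (e 2) 1 q1 ∧ Eg R (e 2) 4 q4 := by
    intro q hq
    obtain ⟨q1, q4, h1, h4, h⟩ := P1 q (hperp q hq)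
    exact ⟨q1, q4, hperp' q1 h1, hperp' q4 h4, h⟩
  -- first claim
  have c1 : ∀ p q, perp4 e p → perp4 e q → R4 R (e 0) p (e 1) q = - R4 R (e 0) q (e 1) p := by
    intro p q hp hq
    obtain ⟨p1, p4, hp1, hp4, rfl, ep1, ep4⟩ := O1 p hp
    obtain ⟨q1, q4, hq1, hq4, rfl, eq1, eq4⟩ := O1 q hq
    have a1 := E5 p1 q1 ep1 eq1
    have a2 := E6 p1 q4 4 (hp1 0) eq4 (by norm_num)
    have a3 := E6 p4 q4 4 (hp4 0) eq4 (by norm_num)
    have a4 := E6 q1 p4 4 (hq1 0) ep4 (by norm_num)
    have a5 := E6 q4 p4 4 (hq4 0) ep4 (by norm_num)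
    rw [add4, add2, add2, add4, add2, add2, a1, a2.1, a2.2, a3.1, a3.2, a4.1, a4.2]
    ring
  refine ⟨c1, fun p q hp hq hq4 => (E6 p q 4 (hp 0) hq4 (by norm_num)).1, ?_⟩
  -- the quadratic version of the third claim
  have c3 : ∀ q, perp4 e q → Eg R (e 0) 1 q →
      ∑ i, R4 R (e 0) (sb i) (e 1) q ^ 2 = dot q q := by
    intro q hq hq1
    have h12 := E12 q hq1 (hq 2)
    obtain ⟨r1, r4, hr1, hr4, hqr, er1, er4⟩ := P1' q hq
    -- `r4` is in `W_1(e0)`
    have f4 : Eg R (e 0) 1 r4 := (P2 r4 (hperp r4 hr4) er4).2.1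
    have f1 : Eg R (e 0) 1 r1 := by
      refine ⟨hr1 0, fun p => ?_⟩
      have b1 := hq1.2 p
      have b2 := f4.2 p
      rw [hqr, add4, dot_add_right] at b1
      linarith
    -- orthogonality
    have ort : dot r1 r4 = 0 := by
      have b1 := er4.2 r1
      have b2 := er1.2 r4
      have b3 := (hsym R hC (e 2) r1 (e 2) r4).2.2.1
      rw [b1, b2, dot_comm r4 r1] at b3
      linarith
    have k2 : K2 R (e 2) q = dot r1 r1 + 4 * dot r4 r4 := by
      rw [hK, hqr, add4, er1.2, er4.2, dot_add_left, dot_add_left, ort, dot_comm r4 r1, ort]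
      ring
    have k1 : K2 R (e 1) q = dot r1 r1 + dot r4 r4 := by
      rw [hK, ← O3 q q hq hq, hq1.2, hqr, dot_add_left, dot_add_right, dot_add_right, ort,
        dot_comm r4 r1, ort]
      ring
    have k0 : dot q q = dot r1 r1 + dot r4 r4 := by
      rw [hqr, dot_add_left, dot_add_right, dot_add_right, ort, dot_comm r4 r1, ort]
      ring
    -- `M (sb i, r1) = 0`
    have m1 : ∀ p, R4 R (e 0) p (e 2) r1 = 0 := by
      intro p
      set v : Fin n → ℝ := fun i => ∑ j, dot p (e j) * e j i with hv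
      have hw : perp4 e (fun i => p i - v i) := by
        intro k
        rw [dot_sub_left]
        have : dot v (e k) = dot p (e k) := by
          have e1 : dot v (e k) = ∑ j, dot p (e j) * dot (e j) (e k) := by
            show ∑ i, (∑ j, dot p (e j) * e j i) * e k i = ∑ j, dot p (e j) * ∑ i, e j i * e k i
            simp only [Finset.sum_mul, Finset.mul_sum]
            rw [Finset.sum_comm]
            exact Finset.sum_congr rfl fun j _ => Finset.sum_congr rfl fun i _ => by ring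
          have on : ∀ i j, dot (e i) (e j) = if i = j then 1 else 0 := hNV.on
          rw [e1]
          simp only [on, mul_ite, mul_one, mul_zero, Finset.sum_ite_eq', Finset.mem_univ,
            if_true]
        rw [this, sub_self]
      have h1 : R4 R (e 0) (fun i => p i - v i) (e 2) r1 = 0 :=
        (M1 r1 (fun i => p i - v i) hr1 hw f1 er1).2
      have h2 : R4 R (e 0) v (e 2) r1 = 0 := by
        have h3 : ∀ j, R4 R (e 0) (e j) (e 2) r1 = 0 := by
          intro j
          rw [O4 r1 0 j 2]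
          have h4 : (fun i => ∑ j, dot r1 (e j) * e j i) = fun i => (0 : ℝ) * r1 i := by
            funext i
            rw [zero_mul]
            exact Finset.sum_eq_zero fun j _ => by rw [hr1 j, zero_mul]
          rw [h4, smul4, zero_mul]
        have h5 : v = fun i => (fun i => (fun i => dot p (e 0) * e 0 i + dot p (e 1) * e 1 i) i +
            (fun i => dot p (e 2) * e 2 i + dot p (e 3) * e 3 i) i) i := by
          funext i
          simp only [hv, Fin.sum_univ_four]
          ring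
        rw [h5, add2, (hlin R (e 0) (e 1) (e 0) (e 2) r1 _ _).2.1,
          (hlin R (e 2) (e 3) (e 0) (e 2) r1 _ _).2.1, h3, h3, h3, h3]
        ring
      have h6 : p = fun i => (fun i => p i - v i) i + v i := by
        funext i
        ring
      rw [h6, add2, h1, h2, add_zero]
    have m2 : ∑ i, R4 R (e 0) (sb i) (e 2) q ^ 2 = 4 * dot r4 r4 := by
      rw [← M6 r4 r4 hr4 hr4 er4 er4]
      refine Finset.sum_congr rfl fun i _ => ?_
      rw [hqr, add4, m1, zero_add, sq]
    rw [k2, k1, m2] at h12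
    rw [k0]
    linarith
  intro q q' hq hq' e1 e1'
  have hs : perp4 e (fun i => q i + q' i) := by
    intro i
    rw [dot_add_left, hq i, hq' i, add_zero]
  have es : Eg R (e 0) 1 (fun i => q i + q' i) := by
    refine ⟨hs 0, fun p => ?_⟩
    rw [add4, e1.2, e1'.2, dot_add_right]
    ring
  have t1 := c3 q hq e1
  have t2 := c3 q' hq' e1'
  have t3 := c3 _ hs es
  simp only [add4, add_sq, Finset.sum_add_distrib] at t3
  rw [t1, t2, dot_add_left, dot_add_right, dot_add_right, dot_comm q' q] at t3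
  have t4 : ∑ i, 2 * R4 R (e 0) (sb i) (e 1) q * R4 R (e 0) (sb i) (e 1) q' =
      2 * ∑ i, R4 R (e 0) (sb i) (e 1) q * R4 R (e 0) (sb i) (e 1) q' := by
    rw [Finset.mul_sum]
    exact Finset.sum_congr rfl fun i _ => by ring
  rw [t4] at t3
  linarith

end Pool.Agent.Helper38.FLG
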