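import Pool.Agent.Helper47.FLG.Fun
import Pool.Agent.Helper38.RFn.FIN

/-!
# Project FLG: packet ODM (odd dimensions)
-/

set_option autoImplicit false

namespace Pool.Agent.Helper38.FLG

open Finset Pool.Agent.Helper47.RFn Pool.Agent.Helper73.RFn Pool.Agent.Helper47.FLG
open Pool.Agent.Helper38.RFn.FIN

theorem p_ODM : OdmStmt := by
  intro hSta hOds hCnf hFiv hLp hVlb hDia hHeat n hn hodd
  obtain ⟨ε1, hε1, A1, hA1, hO⟩ := hOds n hn hodd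
  obtain ⟨C, σ, hC, hσ, hσ1, hGd⟩ := hCnf n hn ε1 hε1 A1 hA1
  obtain ⟨C1, hC1, hLP⟩ := hLp n C σ hn hC hσ hσ1
  obtain ⟨v0, hv0, hV⟩ := hVlb n C1 σ hn hC1 hσ hσ1
  obtain ⟨Cm, hCm⟩ : ∃ Cm : ℝ, Cm = max C C1 := ⟨_, rfl⟩
  have hCm1 : C ≤ Cm := by rw [hCm]; exact le_max_left _ _
  have hCm2 : C1 ≤ Cm := by rw [hCm]; exact le_max_right _ _
  obtain ⟨C2, hC2, hD⟩ := hDia hHeat n Cm σ hn (hC.trans hCm1) hσ hσ1
  refine ⟨v0 / C2 ^ n, by positivity, ?_⟩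
  intro G hG hpin
  obtain ⟨T, l0, C', σ', A, θ, hT, hl0, -, -, -, hf, hg0, hIni, -, hBl⟩ := hSta n hn G hG hpin
  have hG0 : Good T l0 C σ A θ := hGd T l0 A θ hT hl0 hf hIni
    (fun t h0 h1 x hx hA => hO T l0 A θ hT hl0 hf hIni t h0 h1 x hx hA)
  have hlp : ∀ t, 0 ≤ t → t < T → ∀ x, x ≠ 0 → 0 < lamf (A t) (θ t) x := fun t h0 h1 x hx =>
    lt_of_lt_of_le hl0 (hG0.p1 t h0 h1 x hx).1
  obtain ⟨τ, hL⟩ := hLP T l0 A θ hT hl0 hf hG0 hBl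
  have hvol := hV T τ A θ hf hL (fun t h0 h1 x hx => (hlp t h0 h1 x hx).le)
  have hdia := hD T l0 τ A θ hl0 hf (good_mono hl0 hC hCm1 hG0) (last_mono hC1 hCm2 hL)
  rw [gdiam_congr hg0] at hdia
  rw [gvol_congr hg0] at hvol
  have hpow : gdiam G ^ n ≤ (C2 * Real.sqrt τ) ^ n := hodd.strictMono_pow.monotone hdia
  calc v0 / C2 ^ n * gdiam G ^ n ≤ v0 / C2 ^ n * (C2 * Real.sqrt τ) ^ n :=
        mul_le_mul_of_nonneg_left hpow (by positivity)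
    _ = v0 * Real.sqrt τ ^ n := by
        rw [mul_pow]
        field_simp
    _ ≤ gvol G := hvol

end Pool.Agent.Helper38.FLG
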